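import Pool.Agent.N928.FG.Stm

/-!
# `D > 0` below criticality
-/

set_option autoImplicit false

namespace Pool.Agent.N395.FG.DPOS

open Pool.Agent.N928.FG Filter Topology

lemma ps_summable (c : ℕ → ℝ) (k : ℕ) (hc : ∀ n, |c n| ≤ (n : ℝ) ^ k) (u : ℝ) (h0 : 0 ≤ u)
    (h1 : u < 1) : Summable (fun n : ℕ => c n * u ^ n) := by
  have hs : Summable (fun n : ℕ => (n : ℝ) ^ k * u ^ n) :=
    summable_pow_mul_geometric_of_norm_lt_one k (by rw [Real.norm_eq_abs, abs_of_nonneg h0]; exact h1)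
  refine Summable.of_norm_bounded hs fun n => ?_
  rw [Real.norm_eq_abs, abs_mul, abs_of_nonneg (pow_nonneg h0 n)]
  exact mul_le_mul_of_nonneg_right (hc n) (pow_nonneg h0 n)

lemma ps_bound (c : ℕ → ℝ) (k : ℕ) (hc : ∀ n, |c n| ≤ (n : ℝ) ^ k) (r : ℝ) (hr0 : 0 < r)
    (n : ℕ) (y : ℝ) (hy : y ∈ Set.Ioo 0 r) :
    ‖c n * ((n : ℝ) * y ^ (n - 1))‖ ≤ ((n : ℝ) ^ (k + 1) * r ^ n) * r⁻¹ := by
  rw [Real.norm_eq_abs, abs_mul]
  rcases n with _ | n
  · simp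
  · rw [Nat.add_sub_cancel, abs_of_nonneg (mul_nonneg (Nat.cast_nonneg _) (pow_nonneg hy.1.le n))]
    have e : ((n + 1 : ℕ) : ℝ) ^ (k + 1) * r ^ (n + 1) * r⁻¹ =
        ((n + 1 : ℕ) : ℝ) ^ k * (((n + 1 : ℕ) : ℝ) * r ^ n) := by
      rw [pow_succ (((n + 1 : ℕ) : ℝ)) k, pow_succ r n]
      field_simp
    rw [e]
    refine mul_le_mul (hc _) ?_ (mul_nonneg (Nat.cast_nonneg _) (pow_nonneg hy.1.le n))
      (pow_nonneg (Nat.cast_nonneg _) k)
    exact mul_le_mul_of_nonneg_left (pow_le_pow_left₀ hy.1.le hy.2.le n) (Nat.cast_nonneg _)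

lemma ps_deriv (c : ℕ → ℝ) (k : ℕ) (hc : ∀ n, |c n| ≤ (n : ℝ) ^ k) (u : ℝ) (h0 : 0 < u)
    (h1 : u < 1) : HasDerivAt (fun z : ℝ => ∑' n : ℕ, c n * z ^ n)
      ((∑' n : ℕ, (n : ℝ) * c n * u ^ n) / u) u := by
  obtain ⟨r, hr1, hr2⟩ := exists_between h1
  have hr0 : 0 < r := h0.trans hr1
  have hs : Summable (fun n : ℕ => ((n : ℝ) ^ (k + 1) * r ^ n) * r⁻¹) := by
    have h := (summable_pow_mul_geometric_of_norm_lt_one (R := ℝ) (k + 1) (r := r)
      (by rw [Real.norm_eq_abs, abs_of_pos hr0]; exact hr2))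
    exact h.mul_right _
  have hd : ∀ (n : ℕ) (y : ℝ), y ∈ Set.Ioo 0 r →
      HasDerivAt (fun z : ℝ => c n * z ^ n) (c n * ((n : ℝ) * y ^ (n - 1))) y := by
    intro n y _
    have h := hasDerivAt_pow (𝕜 := ℝ) n y
    exact h.const_mul (c n)
  have hm : u ∈ Set.Ioo 0 r := ⟨h0, hr1⟩
  have key : HasDerivAt (fun z : ℝ => ∑' n : ℕ, c n * z ^ n)
      (∑' n : ℕ, c n * ((n : ℝ) * u ^ (n - 1))) u :=
    hasDerivAt_tsum_of_isPreconnected (g := fun (n : ℕ) (z : ℝ) => c n * z ^ n)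
      (g' := fun (n : ℕ) (z : ℝ) => c n * ((n : ℝ) * z ^ (n - 1))) hs isOpen_Ioo
      isPreconnected_Ioo hd (ps_bound c k hc r hr0) hm (ps_summable c k hc u h0.le h1) hm
  have e : (∑' n : ℕ, c n * ((n : ℝ) * u ^ (n - 1))) = (∑' n : ℕ, (n : ℝ) * c n * u ^ n) / u := by
    rw [← tsum_div_const]
    refine tsum_congr fun n => ?_
    rcases n with _ | n
    · simp
    · rw [Nat.add_sub_cancel, pow_succ]
      field_simp
  rw [← e]
  exact key

theorem t_DPOS : S_CONV → S_DLOG → S_DZ → S_AB → S_S1 → S_DPOS := by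
  intro hCONV hDLOG hDZ _ hS1 β hβ hβ2 hD1 u hu0 hu1
  have hbet : ∀ i, 0 < bet β i ∧ bet β i ≤ 1 / 2 := by
    intro i
    unfold bet
    split_ifs
    · norm_num
    · exact ⟨hβ, hβ2⟩
  have ha0 : ∀ n, 0 ≤ an β n := fun n =>
    Finset.prod_nonneg fun i _ => (hS1 _ (hbet i).1 (hbet i).2 n 0).1
  have ha1 : ∀ n, an β n ≤ 1 := fun n =>
    Finset.prod_le_one (fun i _ => (hS1 _ (hbet i).1 (hbet i).2 n 0).1)
      fun i _ => (hS1 _ (hbet i).1 (hbet i).2 n 0).2.2.2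
  have hc0 : ∀ n, |an β n| ≤ (n : ℝ) ^ 0 := fun n => by
    rw [pow_zero, abs_of_nonneg (ha0 n)]
    exact ha1 n
  have hc1 : ∀ n : ℕ, |(n : ℝ) * an β n| ≤ (n : ℝ) ^ 1 := fun n => by
    rw [pow_one, abs_of_nonneg (mul_nonneg (Nat.cast_nonneg n) (ha0 n))]
    exact mul_le_of_le_one_right (Nat.cast_nonneg n) (ha1 n)
  have hc2 : ∀ n : ℕ, |(n : ℝ) * ((n : ℝ) * an β n)| ≤ (n : ℝ) ^ 2 := fun n => by
    rw [abs_of_nonneg (mul_nonneg (Nat.cast_nonneg n) (mul_nonneg (Nat.cast_nonneg n) (ha0 n)))]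
    nlinarith [Nat.cast_nonneg (α := ℝ) n, mul_nonneg (Nat.cast_nonneg (α := ℝ) n) (Nat.cast_nonneg (α := ℝ) n), ha1 n,
      mul_le_mul_of_nonneg_left (ha1 n) (mul_nonneg (Nat.cast_nonneg (α := ℝ) n) (Nat.cast_nonneg (α := ℝ) n))]
  obtain ⟨hW, _, _, _, _⟩ := hDZ β hβ hβ2
  -- abbreviations
  set G1 : ℝ → ℝ := fun z => ∑' n : ℕ, (n : ℝ) * an β n * z ^ n with hG1
  set G2 : ℝ → ℝ := fun z => ∑' n : ℕ, (n : ℝ) * ((n : ℝ) * an β n) * z ^ n with hG2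
  have hDG : ∀ z, D β z = 2 * (2 * GG β z ^ 2 - GG β z - G1 z) := by
    intro z
    unfold D W
    rw [hG1]
    ring
  have hG : ∀ z ∈ Set.Ico (0 : ℝ) 1, 1 ≤ GG β z := by
    intro z hz
    have := hW z ⟨hz.1, hz.2.le⟩
    unfold W at this
    linarith
  have hG1n : ∀ z ∈ Set.Ico (0 : ℝ) 1, 0 ≤ G1 z := by
    intro z hz
    exact tsum_nonneg fun n => mul_nonneg (mul_nonneg (Nat.cast_nonneg n) (ha0 n))
      (pow_nonneg hz.1 n)
  have dG : ∀ z ∈ Set.Ioo (0 : ℝ) 1, HasDerivAt (GG β) (G1 z / z) z := by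
    intro z hz
    exact ps_deriv (an β) 0 hc0 z hz.1 hz.2
  have dG1 : ∀ z ∈ Set.Ioo (0 : ℝ) 1, HasDerivAt G1 (G2 z / z) z := by
    intro z hz
    exact ps_deriv (fun n => (n : ℝ) * an β n) 1 hc1 z hz.1 hz.2
  -- `F = G²/(G + G₁)`
  have dF : ∀ z ∈ Set.Ioo (0 : ℝ) 1, HasDerivAt (fun z => GG β z ^ 2 / (GG β z + G1 z))
      ((2 * GG β z * (G1 z / z) * (GG β z + G1 z) - GG β z ^ 2 * (G1 z / z + G2 z / z)) /
        (GG β z + G1 z) ^ 2) z := by
    intro z hz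
    have hpos : GG β z + G1 z ≠ 0 := by
      have := hG z ⟨hz.1.le, hz.2⟩
      have := hG1n z ⟨hz.1.le, hz.2⟩
      linarith
    have h2 : HasDerivAt (fun z => GG β z ^ 2) (2 * GG β z * (G1 z / z)) z := by
      have := HasDerivAt.fun_pow (dG z hz) 2
      simpa using this
    exact h2.div ((dG z hz).add (dG1 z hz)) hpos
  have nF : ∀ z ∈ Set.Ioo (0 : ℝ) 1,
      (2 * GG β z * (G1 z / z) * (GG β z + G1 z) - GG β z ^ 2 * (G1 z / z + G2 z / z)) /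
        (GG β z + G1 z) ^ 2 ≤ 0 := by
    intro z hz
    have hconv := hCONV β hβ hβ2 z hz.1.le hz.2
    have e1 : (∑' n : ℕ, (n : ℝ) * ((n : ℝ) - 1) * an β n * z ^ n) = G2 z - G1 z := by
      have s1 := ps_summable (fun n : ℕ => (n : ℝ) * an β n) 1 hc1 z hz.1.le hz.2
      have s2 := ps_summable (fun n : ℕ => (n : ℝ) * ((n : ℝ) * an β n)) 2 hc2 z hz.1.le hz.2
      rw [hG1, hG2]
      simp only
      rw [← s2.tsum_sub s1]
      refine tsum_congr fun n => ?_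
      ring
    rw [e1] at hconv
    change 2 * G1 z ^ 2 ≤ GG β z * (G2 z - G1 z) at hconv
    have hGz := hG z ⟨hz.1.le, hz.2⟩
    refine div_nonpos_of_nonpos_of_nonneg ?_ (sq_nonneg _)
    have e2 : 2 * GG β z * (G1 z / z) * (GG β z + G1 z) - GG β z ^ 2 * (G1 z / z + G2 z / z) =
        GG β z * (2 * G1 z ^ 2 - GG β z * (G2 z - G1 z)) / z := by
      have : z ≠ 0 := hz.1.ne'
      field_simp
      ring
    rw [e2]
    refine div_nonpos_of_nonpos_of_nonneg ?_ hz.1.le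
    exact mul_nonpos_of_nonneg_of_nonpos (by linarith) (by linarith)
  have anti : AntitoneOn (fun z => GG β z ^ 2 / (GG β z + G1 z)) (Set.Ioo (0 : ℝ) 1) := by
    refine antitoneOn_of_deriv_nonpos (convex_Ioo 0 1) ?_ ?_ ?_
    · exact fun z hz => (dF z hz).continuousAt.continuousWithinAt
    · rw [interior_Ioo]
      exact fun z hz => (dF z hz).differentiableAt.differentiableWithinAt
    · rw [interior_Ioo]
      intro z hz
      rw [(dF z hz).deriv]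
      exact nF z hz
  rcases hu0.eq_or_lt with h | hu0'
  · -- `u = 0`
    subst h
    have hz : G1 0 = 0 := by
      rw [hG1]
      simp only
      rw [← tsum_zero (α := ℝ) (β := ℕ)]
      refine tsum_congr fun n => ?_
      rcases n with _ | n
      · simp
      · simp
    rw [hDG, hz]
    have := hG 0 ⟨le_rfl, one_pos⟩
    nlinarith
  · obtain ⟨c, C, u₀, hc, _, hu₀, hu₀1, hlog⟩ := hDLOG β hβ hβ2 hD1
    obtain ⟨v, hv, hv1⟩ := exists_between (max_lt hu1 hu₀1)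
    have hv2 : u < v := (le_max_left _ _).trans_lt hv
    have hv3 : u₀ < v := (le_max_right _ _).trans_lt hv
    have hv0 : 0 < v := hu0'.trans hv2
    have hDv : 0 < D β v := by
      refine lt_of_lt_of_le ?_ (hlog v hv3.le hv1).1
      refine mul_pos hc (mul_pos (by linarith) (Real.log_pos ?_))
      rw [lt_div_iff₀ (by linarith)]
      linarith
    have h1 := anti ⟨hu0', hu1⟩ ⟨hv0, hv1⟩ hv2.le
    simp only at h1
    rw [hDG] at hDv ⊢
    have p1 : 0 < GG β u + G1 u := by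
      have := hG u ⟨hu0, hu1⟩
      have := hG1n u ⟨hu0, hu1⟩
      linarith
    have p2 : 0 < GG β v + G1 v := by
      have := hG v ⟨hv0.le, hv1⟩
      have := hG1n v ⟨hv0.le, hv1⟩
      linarith
    have h2 : 1 / 2 < GG β v ^ 2 / (GG β v + G1 v) := by
      rw [lt_div_iff₀ p2]
      linarith
    have h3 : 1 / 2 < GG β u ^ 2 / (GG β u + G1 u) := h2.trans_le h1
    rw [lt_div_iff₀ p1] at h3
    linarith

end Pool.Agent.N395.FG.DPOS
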